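import Pool.Agent.H487.EF.Stm
import Pool.Agent.H477.E.Strip
import Pool.Agent.H477.E.Card
import Pool.Graph.R_seed8.Y24.F1

set_option autoImplicit false

/-!
# S_MIDX: the zeros of the derivatives which are not evenly spaced are counted by zeros of zeta (helper980)
-/

open Finset Complex Filter Topology Metric Set MeasureTheory

namespace Pool.Agent.H980.EF

open Pool.Agent.Helper242.KK (FT Ph)
open Pool.Agent.H477.Jen
open Pool.Agent.H477.E
open Pool.Agent.H477.S (LB Mt lt)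
open Pool.Agent.H487.ED (Ev)
open Pool.Agent.H487.EF

theorem zeta_order_one {ρ : ℂ} (h : riemannZeta ρ = 0) : (1 : ℝ) ≤ (analyticOrderNatAt riemannZeta ρ : ℝ) := by
  have hρ : ρ ≠ 1 := by
    rintro rfl
    exact riemannZeta_one_ne_zero h
  have han : AnalyticOnNhd ℂ riemannZeta {1}ᶜ :=
    DifferentiableOn.analyticOnNhd (fun s hs => (differentiableAt_riemannZeta hs).differentiableWithinAt)
      isOpen_compl_singleton
  have hpre : IsPreconnected ({1}ᶜ : Set ℂ) :=
    (isConnected_compl_singleton_of_one_lt_rank (by simp) 1).isPreconnected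
  have h2 : riemannZeta 2 ≠ 0 := riemannZeta_ne_zero_of_one_le_re (by norm_num)
  have h21 : (2 : ℂ) ∈ ({1}ᶜ : Set ℂ) := by
    simp
  have htop : analyticOrderAt riemannZeta ρ ≠ ⊤ :=
    AnalyticOnNhd.analyticOrderAt_ne_top_of_isPreconnected han hpre h21 hρ
      (by rw [(han 2 h21).analyticOrderAt_eq_zero.mpr h2]; simp)
  have h0 : analyticOrderAt riemannZeta ρ ≠ 0 := by
    intro h1
    exact (han ρ hρ).analyticOrderAt_eq_zero.1 h1 h
  have h3 : 1 ≤ analyticOrderNatAt riemannZeta ρ := by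
    rw [analyticOrderNatAt, Nat.one_le_iff_ne_zero]
    intro h4
    rcases (ENat.toNat_eq_zero).1 h4 with h5 | h5
    · exact h0 h5
    · exact htop h5
  exact_mod_cast h3

/-- the set of the zeros to the right -/
def BS (σ T : ℝ) : Set ℂ := {ρ : ℂ | riemannZeta ρ = 0 ∧ σ < ρ.re ∧ 0 < ρ.im ∧ ρ.im ≤ T}

theorem BS_fin (σ T : ℝ) : (BS σ T).Finite :=
  (Pool.Agent.Y24.ZZ_fin σ T).subset fun _ h => ⟨h.1, h.2.1.le, h.2.2.1, h.2.2.2⟩

theorem card_le_Nz (σ T : ℝ) : ((BS_fin σ T).toFinset.card : ℝ) ≤ Nz σ T := by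
  have h1 : Nz σ T = ∑ ρ ∈ (BS_fin σ T).toFinset, (analyticOrderNatAt riemannZeta ρ : ℝ) :=
    finsum_mem_eq_finite_toFinset_sum _ (BS_fin σ T)
  rw [h1, Finset.card_eq_sum_ones, Nat.cast_sum]
  refine Finset.sum_le_sum fun ρ hρ => ?_
  rw [Set.Finite.mem_toFinset] at hρ
  rw [Nat.cast_one]
  exact zeta_order_one hρ.1

theorem lt_eq {t : ℝ} (ht : 0 < t) : lt t = 1 / 2 * Real.log t - 1 / 2 * Real.log (2 * Real.pi) :=
  lamR_re ht

theorem log_two_pi : (1:ℝ) ≤ Real.log (2 * Real.pi) := by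
  rw [Real.le_log_iff_exp_le (by positivity)]
  have h1 := Real.exp_one_lt_d9
  have h2 := Real.pi_gt_three
  linarith

/-- the counting -/
theorem count_main (S : Finset ℂ) (k : ℕ) (B : Finset ℂ) (H W : ℝ) (hH : 0 ≤ H)
    (hW : 0 ≤ W)
    (hwin : ∀ n : ℕ, (∃ w ∈ S, ⌊w.re⌋₊ = n) → ∀ S' : Finset ℂ, S' ⊆ S → (∀ w ∈ S', ⌊w.re⌋₊ = n) →
      ∑ w ∈ S', ordk k w ≤ W)
    (hpos : ∀ w ∈ S, 0 ≤ w.re)
    (hB : ∀ w ∈ S, ∃ ρ ∈ B, |ρ.im - w.re| ≤ H) :
    ∑ w ∈ S, ordk k w ≤ (B.card : ℝ) * ((2 * H + 3) * W) := by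
  classical
  set g : ℂ → ℕ := fun w => ⌊w.re⌋₊ with hg
  have h1 : ∑ w ∈ S, ordk k w = ∑ n ∈ S.image g, ∑ w ∈ S with g w = n, ordk k w :=
    (Finset.sum_fiberwise_of_maps_to (fun w hw => Finset.mem_image_of_mem g hw) _).symm
  have h2 : ∑ n ∈ S.image g, ∑ w ∈ S with g w = n, ordk k w ≤ ∑ n ∈ S.image g, W := by
    refine Finset.sum_le_sum fun n hn => ?_
    obtain ⟨w, hw, hwn⟩ := Finset.mem_image.1 hn
    exact hwin n ⟨w, hw, hwn⟩ _ (Finset.filter_subset _ _) fun w' hw' => (Finset.mem_filter.1 hw').2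
  have h3 : ∀ n ∈ S.image g, ∃ ρ ∈ B, |ρ.im - n| ≤ H + 1 := by
    intro n hn
    obtain ⟨w, hw, hwn⟩ := Finset.mem_image.1 hn
    obtain ⟨ρ, hρ, hρw⟩ := hB w hw
    refine ⟨ρ, hρ, ?_⟩
    have h4 : (n : ℝ) ≤ w.re := by
      rw [← hwn]
      exact Nat.floor_le (hpos w hw)
    have h5 : w.re < n + 1 := by
      rw [← hwn]
      exact Nat.lt_floor_add_one _
    rw [abs_le] at hρw ⊢
    constructor <;> linarith [hρw.1, hρw.2]
  choose! r hrB hr using h3
  have h4 : ((S.image g).card : ℝ) ≤ (B.card : ℝ) * (2 * H + 3) := by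
    rw [Finset.card_eq_sum_card_fiberwise (f := r) (t := B) (fun n hn => hrB n hn), Nat.cast_sum]
    have h5 : ∀ ρ ∈ B, (((S.image g).filter fun n => r n = ρ).card : ℝ) ≤ 2 * H + 3 := by
      intro ρ _
      have h6 := Pool.Agent.H477.EU.card_nat_le ((S.image g).filter fun n => r n = ρ)
        (x := ρ.im - (H + 1)) (y := ρ.im + (H + 1)) (fun n hn => by
          obtain ⟨hn1, hn2⟩ := Finset.mem_filter.1 hn
          have h7 := hr n hn1
          rw [hn2, abs_le] at h7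
          constructor <;> linarith [h7.1, h7.2]) (by linarith)
      linarith
    calc ∑ ρ ∈ B, (((S.image g).filter fun n => r n = ρ).card : ℝ) ≤ ∑ _ρ ∈ B, (2 * H + 3) :=
          Finset.sum_le_sum h5
      _ = (B.card : ℝ) * (2 * H + 3) := by rw [Finset.sum_const, nsmul_eq_mul]
  rw [h1]
  refine h2.trans ?_
  rw [Finset.sum_const, nsmul_eq_mul, ← mul_assoc]
  exact mul_le_mul_of_nonneg_right h4 hW

theorem midx_proof (hE : S_EVL) (hL : S_LBL) (hU : Pool.Agent.H477.E.S_UNITU) : S_MIDX := by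
  intro ε ε' hε hε'
  obtain ⟨e, he⟩ : ∃ e, e = min ε' 1 := ⟨_, rfl⟩
  have he0 : 0 < e := by rw [he]; exact lt_min hε' one_pos
  have he1 : e ≤ ε' := by rw [he]; exact min_le_left _ _
  obtain ⟨δ, η, T1, hδ, hη, hev⟩ := hE ε (e / 8) hε (by positivity)
  obtain ⟨C, TU, hC, hunit⟩ := hU
  have hgrid : ∀ j : ℕ, ∃ T0 : ℝ, ∀ t : ℝ, T0 ≤ t → ZF (min (j * e / 8) (1 / 2)) t (2 * Real.log t) →
      LB (fun v : ℂ => FT Ph (t + v)) (Mt t) (lt t) (min (j * e / 8) (1 / 2)) δ η := by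
    intro j
    obtain ⟨T0, _, h⟩ := hL (min (j * e / 8) (1 / 2)) (le_min (by positivity) (by norm_num))
      (min_le_right _ _) δ η hδ hη
    exact ⟨T0, h⟩
  choose T2 hT2 using hgrid
  obtain ⟨T3, hT3⟩ : ∃ T3 : ℝ, ∀ j ∈ Finset.range (⌈8 / e⌉₊ + 1), T2 j ≤ T3 := by
    obtain ⟨M, hM⟩ := ((Finset.range (⌈8 / e⌉₊ + 1)).image T2).exists_le
    exact ⟨M, fun j hj => hM _ (Finset.mem_image_of_mem _ hj)⟩
  -- largeness
  have hlog2 : ∀ᶠ T : ℝ in atTop, 22 * C * Real.log T ^ 2 ≤ T ^ ε' := by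
    have h1 := (isLittleO_log_rpow_rpow_atTop (2:ℝ) hε').bound (c := 1 / (22 * C)) (by positivity)
    filter_upwards [h1, eventually_gt_atTop (1:ℝ)] with T hT hT1
    rw [Real.norm_of_nonneg (Real.rpow_nonneg (Real.log_nonneg hT1.le) _),
      Real.norm_of_nonneg (Real.rpow_nonneg (by linarith) _)] at hT
    rw [Real.rpow_two] at hT
    rw [one_div, ← div_eq_inv_mul, le_div_iff₀ (by positivity)] at hT
    linarith
  have hlog1 : ∀ᶠ T : ℝ in atTop, 100 * Real.log T ≤ T := by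
    have h1 := Real.isLittleO_log_id_atTop.bound (c := 1 / 100) (by positivity)
    filter_upwards [h1, eventually_gt_atTop (1:ℝ)] with T hT hT1
    rw [Real.norm_of_nonneg (Real.log_nonneg hT1.le), id, Real.norm_of_nonneg (by linarith)] at hT
    linarith
  obtain ⟨T4, hT4⟩ := Filter.eventually_atTop.1 (hlog2.and (hlog1.and
    ((eventually_ge_atTop T1).and ((eventually_ge_atTop T3).and ((eventually_ge_atTop (TU + 1)).and
      (eventually_ge_atTop (100:ℝ)))))))
  refine ⟨T4, ?_⟩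
  intro T hT k hk1 hk2
  obtain ⟨hA, hB, hTT1, hTT3, hTU, hT100⟩ := hT4 T hT
  have hT0 : 0 < T := by linarith
  set L := Real.log T with hLdef
  have hlog100 : (4:ℝ) ≤ L := by
    rw [hLdef, Real.le_log_iff_exp_le hT0]
    have h1 := Real.exp_one_lt_d9
    have h2 : Real.exp 4 = Real.exp 1 ^ 4 := by rw [← Real.exp_nat_mul]; norm_num
    rw [h2]
    calc Real.exp 1 ^ 4 ≤ (2.72:ℝ) ^ 4 := pow_le_pow_left₀ (Real.exp_pos _).le (by linarith) 4
      _ ≤ 100 := by norm_num
      _ ≤ T := hT100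
  have hL0 : 0 < L := by linarith
  have hltT := lt_eq hT0
  rw [← hLdef] at hltT
  have hpi := log_two_pi
  obtain ⟨x, hx⟩ : ∃ x : ℝ, x = 2 * k / L := ⟨_, rfl⟩
  have hxL : x * L = 2 * k := by rw [hx]; field_simp
  have hx2 : 2 * ε' ≤ x := by
    rw [hx, le_div_iff₀ hL0]
    linarith
  have hx1 : x ≤ 1 := by
    rw [hx, div_le_iff₀ hL0]
    linarith
  have hkL : (k:ℝ) ≤ L / 2 := by linarith
  obtain ⟨j, hj⟩ : ∃ j : ℕ, j = ⌊(x - e / 2) * (8 / e)⌋₊ := ⟨_, rfl⟩
  have hxe : 0 ≤ x - e / 2 := by linarith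
  have hj1 : (j:ℝ) ≤ (x - e / 2) * (8 / e) := by
    rw [hj]
    exact Nat.floor_le (by positivity)
  have hj2 : (x - e / 2) * (8 / e) < j + 1 := by
    rw [hj]
    exact Nat.lt_floor_add_one _
  have hj1' : (j:ℝ) * e / 8 ≤ x - e / 2 := by
    have h1 : (x - e / 2) * (8 / e) * (e / 8) = x - e / 2 := by field_simp
    have h2 := mul_le_mul_of_nonneg_right hj1 (show 0 ≤ e / 8 by positivity)
    rw [h1] at h2
    linarith
  have hj2' : x - e / 2 < (j:ℝ) * e / 8 + e / 8 := by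
    have h1 : (x - e / 2) * (8 / e) * (e / 8) = x - e / 2 := by field_simp
    have h2 := mul_lt_mul_of_pos_right hj2 (show 0 < e / 8 by positivity)
    rw [h1] at h2
    linarith
  have hjN : j ∈ Finset.range (⌈8 / e⌉₊ + 1) := by
    rw [Finset.mem_range, Nat.lt_succ_iff]
    have h1 : (j:ℝ) ≤ 8 / e := by
      refine hj1.trans ?_
      have h2 : x - e / 2 ≤ 1 := by linarith
      have h3 : 0 ≤ 8 / e := by positivity
      calc (x - e / 2) * (8 / e) ≤ 1 * (8 / e) := mul_le_mul_of_nonneg_right h2 h3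
        _ = 8 / e := one_mul _
    exact_mod_cast h1.trans (Nat.le_ceil _)
  obtain ⟨h, hh⟩ : ∃ h : ℝ, h = min (j * e / 8) (1 / 2) := ⟨_, rfl⟩
  have hh0 : 0 ≤ h := by rw [hh]; exact le_min (by positivity) (by norm_num)
  have hh1 : h ≤ 1 / 2 := by rw [hh]; exact min_le_right _ _
  have hhx : h ≤ x - e / 2 := by rw [hh]; exact (min_le_left _ _).trans hj1'
  have hρ : ∀ ρ : ℂ, riemannZeta ρ = 0 → 1 / 2 + h < ρ.re → 1 / 2 + 2 * k / L - ε' < ρ.re := by
    intro ρ hρ0 hρ1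
    rw [← hx]
    rcases min_choice ((j:ℝ) * e / 8) (1 / 2) with h1 | h1
    · rw [hh, h1] at hρ1
      linarith
    · rw [hh, h1] at hρ1
      exact absurd hρ0 (riemannZeta_ne_zero_of_one_le_re (by linarith))
  have hlog2T : Real.log (2 * T) ≤ L + 1 := by
    rw [Real.log_mul (by norm_num) hT0.ne']
    have h1 := Real.log_two_lt_d9
    linarith
  have hlog2T0 : 0 ≤ Real.log (2 * T) := Real.log_nonneg (by linarith)
  -- the zeros
  have key : ∀ w : ℂ, iteratedDeriv k (FT Ph) w = 0 → ¬ Ev ε k w → T < w.re → w.re ≤ 2 * T →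
      |w.im| ≤ 1 ∧ ∃ ρ ∈ (BS_fin (1 / 2 + 2 * k / L - ε') (3 * T)).toFinset,
        |ρ.im - w.re| ≤ 2 * Real.log (2 * T) := by
    intro w hw0 hwE hw1 hw2
    have him : |w.im| ≤ 1 := strip_im_one k w hw0 (by linarith)
    refine ⟨him, ?_⟩
    have hw0' : 0 < w.re := by linarith
    have hlw : Real.log w.re ≤ Real.log (2 * T) := Real.log_le_log hw0' hw2
    have hlw2 : L ≤ Real.log w.re := Real.log_le_log hT0 hw1.le
    have hltw := lt_eq hw0'
    by_cases hZ : ZF h w.re (2 * Real.log w.re)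
    · exfalso
      have h1 : LB (fun v : ℂ => FT Ph (w.re + v)) (Mt w.re) (lt w.re) h δ η := by
        rw [hh]
        exact hT2 j w.re (by linarith [hT3 j hjN]) (by rw [← hh]; exact hZ)
      have h2 : (h + e / 8) * lt w.re ≤ k := by
        have h3 : lt w.re ≤ L / 2 := by
          rw [hltw]
          have h4 : Real.log (2 * T) = Real.log 2 + L := by
            rw [Real.log_mul (by norm_num) hT0.ne']
          have h5 := Real.log_two_lt_d9
          have h6 : Real.log 2 + L - Real.log (2 * Real.pi) ≤ L := by linarith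
          linarith
        calc (h + e / 8) * lt w.re ≤ (h + e / 8) * (L / 2) :=
              mul_le_mul_of_nonneg_left h3 (by positivity)
          _ ≤ x * (L / 2) := mul_le_mul_of_nonneg_right (by linarith) (by positivity)
          _ = k := by linarith
      have h3 : (k:ℝ) ≤ lt w.re := by
        refine hk2.trans ?_
        rw [hltT, hltw]
        linarith
      exact hwE ((hev w.re h (by linarith) hh0 hh1 h1 k h2 h3).1 w rfl him hw0)
    · unfold ZF at hZ
      push Not at hZ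
      obtain ⟨ρ, hρ0, hρ1, hρ2⟩ := hZ
      have h1 : |ρ.im - w.re| ≤ 2 * Real.log (2 * T) := by linarith
      refine ⟨ρ, ?_, h1⟩
      rw [Set.Finite.mem_toFinset]
      rw [abs_le] at h1
      exact ⟨hρ0, hρ ρ hρ0 hρ1, by linarith [h1.1], by linarith [h1.2]⟩
  rw [cnt_split k (fun w => ¬ Ev ε k w) (show T ≤ 2 * T by linarith), add_sub_cancel_left]
  set S := cfil (fun w => ¬ Ev ε k w ∧ T < w.re) (ZA_fin k (2 * T)).toFinset with hS
  have hSmem : ∀ w ∈ S, iteratedDeriv k (FT Ph) w = 0 ∧ ¬ Ev ε k w ∧ T < w.re ∧ w.re ≤ 2 * T := by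
    intro w hw
    rw [hS, mem_cfil, Set.Finite.mem_toFinset] at hw
    exact ⟨hw.1.1, hw.2.1, hw.2.2, hw.1.2.2⟩
  have hmain := count_main S k (BS_fin (1 / 2 + 2 * k / L - ε') (3 * T)).toFinset
    (2 * Real.log (2 * T)) (C * Real.log (2 * T)) (by positivity) (by positivity) ?_ ?_ ?_
  · refine hmain.trans ?_
    have h1 : (2 * (2 * Real.log (2 * T)) + 3) * (C * Real.log (2 * T)) ≤ T ^ ε' := by
      have h2 : Real.log (2 * T) ≤ 5 / 4 * L := by linarith
      have h3 : 2 * (2 * Real.log (2 * T)) + 3 ≤ 6 * L := by linarith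
      calc (2 * (2 * Real.log (2 * T)) + 3) * (C * Real.log (2 * T)) ≤
            (6 * L) * (C * (5 / 4 * L)) := by
            apply mul_le_mul h3 _ (by positivity) (by positivity)
            exact mul_le_mul_of_nonneg_left h2 hC.le
        _ = 7.5 * C * L ^ 2 := by ring
        _ ≤ 22 * C * L ^ 2 := by
            have : 0 ≤ C * L ^ 2 := by positivity
            nlinarith
        _ ≤ T ^ ε' := hA
    have h2 := card_le_Nz (1 / 2 + 2 * k / L - ε') (3 * T)
    have h3 : (0:ℝ) ≤ T ^ ε' := Real.rpow_nonneg hT0.le _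
    calc ((BS_fin (1 / 2 + 2 * k / L - ε') (3 * T)).toFinset.card : ℝ) *
          ((2 * (2 * Real.log (2 * T)) + 3) * (C * Real.log (2 * T))) ≤
        ((BS_fin (1 / 2 + 2 * k / L - ε') (3 * T)).toFinset.card : ℝ) * T ^ ε' :=
          mul_le_mul_of_nonneg_left h1 (Nat.cast_nonneg _)
      _ ≤ Nz (1 / 2 + 2 * k / L - ε') (3 * T) * T ^ ε' := mul_le_mul_of_nonneg_right h2 h3
      _ = T ^ ε' * Nz (1 / 2 + 2 * k / L - ε') (3 * T) := mul_comm _ _
  · -- the windows
    intro n hn S' hS' hn'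
    obtain ⟨w0, hw0, hw0n⟩ := hn
    obtain ⟨hz0, hE0, hre0, hre0'⟩ := hSmem w0 hw0
    have hn1 : T - 1 ≤ n := by
      have := Nat.lt_floor_add_one w0.re
      rw [hw0n] at this
      linarith
    have hn2 : (n:ℝ) ≤ 2 * T := by
      have := Nat.floor_le (show 0 ≤ w0.re by linarith)
      rw [hw0n] at this
      linarith
    have hn0 : (0:ℝ) < n := by linarith
    have hkn : (k:ℝ) ≤ Real.log n / 2 := by
      refine hk2.trans ?_
      rw [hltT]
      have h1 : L - 1 ≤ Real.log n := by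
        have h2 : Real.exp (L - 1) ≤ n := by
          rw [Real.exp_sub, hLdef, Real.exp_log hT0]
          have h3 : (2:ℝ) ≤ Real.exp 1 := by
            have := Real.add_one_le_exp (1:ℝ)
            linarith
          rw [div_le_iff₀ (Real.exp_pos _)]
          nlinarith
        exact (Real.le_log_iff_exp_le hn0).2 h2
      linarith
    have h1 := hunit n (by linarith) k hkn S' (fun w hw => by
      obtain ⟨hz, hE', hre, hre'⟩ := hSmem w (hS' hw)
      refine ⟨hz, ?_⟩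
      have him := (key w hz hE' hre hre').1
      have h2 := hn' w hw
      have h3 : (n:ℝ) ≤ w.re := by
        rw [← h2]
        exact Nat.floor_le (by linarith)
      have h4 : w.re < n + 1 := by
        rw [← h2]
        exact Nat.lt_floor_add_one _
      have h5 := Complex.norm_le_abs_re_add_abs_im (w - ((n:ℝ):ℂ))
      rw [sub_re, sub_im, ofReal_re, ofReal_im, sub_zero] at h5
      have h6 : |w.re - n| ≤ 1 := by
        rw [abs_le]
        constructor <;> linarith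
      linarith)
    unfold ordk
    refine h1.trans ?_
    exact mul_le_mul_of_nonneg_left (Real.log_le_log hn0 hn2) hC.le
  · intro w hw
    linarith [(hSmem w hw).2.2.1]
  · intro w hw
    obtain ⟨hz, hE', hre, hre'⟩ := hSmem w hw
    exact (key w hz hE' hre hre').2

end Pool.Agent.H980.EF
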